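import Pool.Agent.U41.OD.Stm
import Pool.Agent.TH214.RM.ChartC

/-!
# The members of the pencil (project OD, package PEN)
-/

set_option autoImplicit false

namespace Pool.Agent.U41.OD

open Pool.Agent.H918R2.Quad Pool.Agent.TH214.RM MvPolynomial

namespace PEN

section gen

variable {O : Type} [CommRing O]

theorem deh_C' {ι : Type} [DecidableEq ι] (s : ι) (r : O) :
    deh s (C r : MvPolynomial ι O) = C r := by simp [deh]

theorem span_to {A B : Type} [CommRing A] [CommRing B] (φ : A →+* B) (S : Set A) (Q : Ideal B)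
    (h : ∀ x ∈ S, φ x ∈ Q) {y : A} (hy : y ∈ Ideal.span S) : φ y ∈ Q := by
  have h1 : Ideal.span S ≤ Q.comap φ := Ideal.span_le.2 h
  exact h1 hy

theorem evq {σ : Type} {Q : Ideal (MvPolynomial σ O)} {a : σ → O} (h : ∀ l, X l - C (a l) ∈ Q)
    (f : MvPolynomial σ O) : f - C (eval a f) ∈ Q := by
  induction f using MvPolynomial.induction_on with
  | C r => simp
  | add p q hp hq =>
    have e : p + q - C (eval a (p + q)) = (p - C (eval a p)) + (q - C (eval a q)) := by
      rw [map_add, C_add]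
      ring
    rw [e]
    exact Q.add_mem hp hq
  | mul_X p i hp =>
    have e : p * X i - C (eval a (p * X i)) =
        (p - C (eval a p)) * X i + C (eval a p) * (X i - C (a i)) := by
      rw [map_mul, eval_X, C_mul]
      ring
    rw [e]
    exact Q.add_mem (Q.mul_mem_right _ hp) (Q.mul_mem_left _ (h i))

theorem evq_iff {σ : Type} {𝔭 : Ideal O} {Q : Ideal (MvPolynomial σ O)} {a : σ → O}
    (hCQ : ∀ r : O, C r ∈ Q ↔ r ∈ 𝔭) (h : ∀ l, X l - C (a l) ∈ Q) (f : MvPolynomial σ O) :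
    f ∈ Q ↔ eval a f ∈ 𝔭 := by
  rw [← hCQ]
  constructor
  · intro hf
    have := Q.sub_mem hf (evq h f)
    rwa [sub_sub_cancel] at this
  · intro hf
    have := Q.add_mem (evq h f) hf
    rwa [sub_add_cancel] at this

end gen

section

variable {O : Type} [CommRing O] {n d : ℕ} (G : MvPolynomial (Fin (n + 2)) O) (c : O)

theorem homog (hG : G.IsHomogeneous d) : (G + C c * X 0 ^ d).IsHomogeneous d := by
  have h1 := (isHomogeneous_C (Fin (n + 2)) c).mul
    ((isHomogeneous_X O (0 : Fin (n + 2))).pow d)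
  rw [one_mul, zero_add] at h1
  exact hG.add h1

theorem deh0 : deh 0 (G + C c * X 0 ^ d) = deh 0 G + C c := by
  rw [deh_add, deh_mul, deh_pow, deh_X, deh_C', tau_self, one_pow, mul_one]

theorem pd (j : Fin (n + 2)) (hj : j ≠ 0) : pderiv j (G + C c * X 0 ^ d) = pderiv j G := by
  rw [map_add, pderiv_C_mul, Derivation.leibniz_pow, pderiv_X_of_ne (Ne.symm hj)]
  simp

theorem pd0 (j : {j : Fin (n + 2) // j ≠ 0}) :
    pderiv j (deh 0 (G + C c * X 0 ^ d)) = pderiv j (deh 0 G) := by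
  rw [deh0, map_add, pderiv_C, add_zero]

theorem sec {N : O} {𝔭 : Ideal O} (hd : 2 ≤ d) (hN : N ∉ 𝔭) (hC : Cert N G) (s : Fin (n + 2))
    (hs : s ≠ 0) (Q : Ideal (MvPolynomial {j : Fin (n + 2) // j ≠ s} O))
    (hCQ : ∀ r : O, C r ∈ Q ↔ r ∈ 𝔭) (h1 : deh s (G + C c * X 0 ^ d) ∈ Q)
    (h2 : ∀ j : Fin (n + 2), j ≠ 0 → deh s (pderiv j (G + C c * X 0 ^ d)) ∈ Q)
    (h0 : (tau s 0 : MvPolynomial {j : Fin (n + 2) // j ≠ s} O) ∈ Q) : False := by
  obtain ⟨M, hM⟩ := hC.sect s hs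
  have hG : deh s G ∈ Q := by
    have e : deh s G = deh s (G + C c * X 0 ^ d) - C c * tau s 0 ^ d := by
      rw [deh_add, deh_mul, deh_pow, deh_X, deh_C']
      ring
    rw [e]
    exact Q.sub_mem h1 (Q.mul_mem_left _ (Ideal.pow_mem_of_mem Q h0 d (by omega)))
  have key : (aeval (tau s) : MvPolynomial (Fin (n + 2)) O →ₐ[O] _).toRingHom
      (C N * X s ^ M) ∈ Q := by
    refine span_to _ _ Q ?_ hM
    rintro x (rfl | rfl | ⟨j, rfl⟩)
    · show deh s (X 0) ∈ Q
      rw [deh_X]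
      exact h0
    · exact hG
    · show deh s (pderiv (j : Fin (n + 2)) G) ∈ Q
      have := h2 j j.2
      rwa [pd G c j j.2] at this
  have key2 : deh s (C N * X s ^ M) ∈ Q := key
  rw [deh_mul, deh_pow, deh_X, deh_C', tau_self, one_pow, mul_one, hCQ] at key2
  exact hN key2

theorem to0 (H : MvPolynomial (Fin (n + 2)) O) (hH : H.IsHomogeneous d) (𝔭 : Ideal O)
    (s : Fin (n + 2)) (Q : Ideal (MvPolynomial {j : Fin (n + 2) // j ≠ s} O)) (hQ : Q.IsPrime)
    (hCQ : ∀ r : O, C r ∈ Q ↔ r ∈ 𝔭)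
    (ht : (tau s 0 : MvPolynomial {j : Fin (n + 2) // j ≠ s} O) ∉ Q) (h1 : deh s H ∈ Q)
    (h2 : ∀ j, pderiv j (deh s H) ∈ Q) :
    ∃ Q' : Ideal (MvPolynomial {j : Fin (n + 2) // j ≠ 0} O), Q'.IsPrime ∧
      (∀ r : O, C r ∈ Q' ↔ r ∈ 𝔭) ∧ deh 0 H ∈ Q' ∧
      (∀ j : Fin (n + 2), deh 0 (pderiv j H) ∈ Q') ∧
      (∀ (P : MvPolynomial (Fin (n + 2)) O) (N : ℕ), P.IsHomogeneous N →
        (deh 0 P ∈ Q' ↔ deh s P ∈ Q)) ∧
      ((∀ h, h ∉ Q' → h * deh 0 H ∉ Q' ^ 2) → ∀ h, h ∉ Q → h * deh s H ∉ Q ^ 2) := by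
  obtain ⟨Q', k1, k2, k3, k4⟩ := chart_change 𝔭 s 0 Q hQ hCQ ht
  exact ⟨Q', k1, k2, (k3 H d hH).2 h1, fun j =>
    (k3 _ (d - 1) hH.pderiv).2 (all_pderiv_mem H d hH s Q h1 h2 j), k3, k4 H d hH⟩

theorem pderiv_trans (a : {j : Fin (n + 2) // j ≠ 0} → O) (j : Fin (n + 2)) (hj : j ≠ 0)
    (P : MvPolynomial (Fin (n + 2)) O) : pderiv j (trans a P) = trans a (pderiv j P) := by
  have hadd : ∀ p q : MvPolynomial (Fin (n + 2)) O, trans a (p + q) = trans a p + trans a q :=
    fun p q => map_add _ _ _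
  have hmul : ∀ p q : MvPolynomial (Fin (n + 2)) O, trans a (p * q) = trans a p * trans a q :=
    fun p q => map_mul _ _ _
  have h0 : trans a (0 : MvPolynomial (Fin (n + 2)) O) = 0 := map_zero _
  have h1 : trans a (1 : MvPolynomial (Fin (n + 2)) O) = 1 := map_one _
  induction P using MvPolynomial.induction_on with
  | C r =>
    have : trans a (C r : MvPolynomial (Fin (n + 2)) O) = C r := by
      unfold trans
      rw [aeval_C]
      rfl
    rw [this, pderiv_C, h0]
  | add p q hp hq => rw [hadd, map_add, map_add, hadd, hp, hq]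
  | mul_X p i hp =>
    have hX : pderiv j (trans a (X i)) = trans a (pderiv j (X i)) := by
      have e : trans a (X i : MvPolynomial (Fin (n + 2)) O) =
          if h : i ≠ 0 then X i + C (a ⟨i, h⟩) * X 0 else X 0 := by
        unfold trans
        rw [aeval_X]
      rw [e]
      by_cases hi : i = j
      · subst hi
        rw [dif_pos hj, map_add, pderiv_C_mul, pderiv_X_self, pderiv_X_of_ne (Ne.symm hj), mul_zero,
          add_zero, h1]
      · rw [pderiv_X_of_ne hi, h0]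
        by_cases hi0 : i ≠ 0
        · rw [dif_pos hi0, map_add, pderiv_C_mul, pderiv_X_of_ne hi, pderiv_X_of_ne (Ne.symm hj),
            mul_zero, add_zero]
        · rw [dif_neg hi0, pderiv_X_of_ne (Ne.symm hj)]
    rw [hmul, Derivation.leibniz, Derivation.leibniz, hp, hX]
    simp only [smul_eq_mul, hadd, hmul]

theorem deh_trans (a : {j : Fin (n + 2) // j ≠ 0} → O) (s : Fin (n + 2))
    (Q : Ideal (MvPolynomial {j : Fin (n + 2) // j ≠ s} O))
    (h0 : (tau s 0 : MvPolynomial {j : Fin (n + 2) // j ≠ s} O) ∈ Q)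
    (P : MvPolynomial (Fin (n + 2)) O) : deh s (trans a P) - deh s P ∈ Q := by
  have hadd : ∀ p q : MvPolynomial (Fin (n + 2)) O, trans a (p + q) = trans a p + trans a q :=
    fun p q => map_add _ _ _
  have hmul : ∀ p q : MvPolynomial (Fin (n + 2)) O, trans a (p * q) = trans a p * trans a q :=
    fun p q => map_mul _ _ _
  induction P using MvPolynomial.induction_on with
  | C r =>
    have : trans a (C r : MvPolynomial (Fin (n + 2)) O) = C r := by
      unfold trans
      rw [aeval_C]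
      rfl
    rw [this, sub_self]
    exact Q.zero_mem
  | add p q hp hq =>
    have e : deh s (trans a (p + q)) - deh s (p + q) =
        (deh s (trans a p) - deh s p) + (deh s (trans a q) - deh s q) := by
      rw [hadd, deh_add, deh_add]
      ring
    rw [e]
    exact Q.add_mem hp hq
  | mul_X p i hp =>
    have hX : deh s (trans a (X i)) - deh s (X i) ∈ Q := by
      have e : trans a (X i : MvPolynomial (Fin (n + 2)) O) =
          if h : i ≠ 0 then X i + C (a ⟨i, h⟩) * X 0 else X 0 := by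
        unfold trans
        rw [aeval_X]
      rw [e]
      by_cases hi0 : i ≠ 0
      · rw [dif_pos hi0, deh_add, deh_mul, deh_X s 0, add_sub_cancel_left]
        exact Q.mul_mem_left _ h0
      · rw [dif_neg hi0]
        push Not at hi0
        rw [hi0, sub_self]
        exact Q.zero_mem
    have e : deh s (trans a (p * X i)) - deh s (p * X i) =
        (deh s (trans a p) - deh s p) * deh s (trans a (X i)) +
          deh s p * (deh s (trans a (X i)) - deh s (X i)) := by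
      rw [hmul, deh_mul, deh_mul]
      ring
    rw [e]
    exact Q.add_mem (Q.mul_mem_right _ hp) (Q.mul_mem_left _ hX)

theorem trans_homog (a : {j : Fin (n + 2) // j ≠ 0} → O) (H : MvPolynomial (Fin (n + 2)) O)
    (hH : H.IsHomogeneous d) : (trans a H).IsHomogeneous d := by
  have h1 : (trans a H).IsHomogeneous (1 * d) := by
    unfold trans
    refine hH.aeval _ fun i => ?_
    by_cases hi : i ≠ 0
    · rw [dif_pos hi]
      have h2 := (isHomogeneous_C (Fin (n + 2)) (a ⟨i, hi⟩)).mul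
        (isHomogeneous_X O (0 : Fin (n + 2)))
      rw [zero_add] at h2
      exact (isHomogeneous_X O i).add h2
    · rw [dif_neg hi]
      exact isHomogeneous_X O _
  rwa [one_mul] at h1

end

end PEN

open PEN

/-- the critical point in the chart `0` decides -/
theorem PEN_ok (h1 : S_FR) (h2 : S_UN) (h3 : S_NW) (h4 : S_TR) (h5 : S_SQ) : S_PEN := by
  intro O _ _ n d G N 𝔭 hp hp0 hfin hN h2p hd hG hC c he
  have hmax : 𝔭.IsMaximal := hp.isMaximal hp0
  have hGc := homog G c hG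
  by_cases hex : ∃ Q : Ideal (MvPolynomial {j : Fin (n + 2) // j ≠ 0} O), Q.IsPrime ∧
      (∀ r : O, C r ∈ Q ↔ r ∈ 𝔭) ∧ deh 0 (G + C c * X 0 ^ d) ∈ Q ∧
      ∀ j, pderiv j (deh 0 (G + C c * X 0 ^ d)) ∈ Q
  swap
  · left
    intro s Q hQ hCQ hGQ
    left
    by_contra hcon
    push Not at hcon
    by_cases hs : s = 0
    · subst hs
      exact hex ⟨Q, hQ, hCQ, hGQ, hcon⟩
    · have ht : (tau s 0 : MvPolynomial {j : Fin (n + 2) // j ≠ s} O) ∉ Q := fun ht =>
        sec G c hd hN hC s hs Q hCQ hGQ (fun j _ => all_pderiv_mem _ d hGc s Q hGQ hcon j) ht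
      obtain ⟨Q', k1, k2, k3, k4, -, -⟩ := to0 _ hGc 𝔭 s Q hQ hCQ ht hGQ hcon
      refine hex ⟨Q', k1, k2, k3, fun j => ?_⟩
      rw [pderiv_deh]
      exact k4 j
  obtain ⟨Q₀, q1, q2, q3, q4⟩ := hex
  have q3' : deh 0 G + C c ∈ Q₀ := by rwa [deh0] at q3
  have q4' : ∀ j, pderiv j (deh 0 G) ∈ Q₀ := fun j => by
    have := q4 j
    rwa [pd0] at this
  obtain ⟨a₀, ha₀⟩ := h1 G N c 𝔭 hmax hfin hN hC Q₀ q1 q2 q4' q3'
  have nd : ∀ a : {j : Fin (n + 2) // j ≠ 0} → O, (∀ j, eval a (pderiv j (deh 0 G)) ∈ 𝔭) →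
      eval a (hess (deh 0 G)).det ∉ 𝔭 := by
    intro a ha hdet
    have : eval a (C N) ∈ 𝔭 := by
      refine span_to (eval a) _ 𝔭 ?_ hC.nondeg
      rintro x (rfl | ⟨j, rfl⟩)
      · exact hdet
      · exact ha j
    rw [eval_C] at this
    exact hN this
  have b1 : ∀ j, eval a₀ (pderiv j (deh 0 G)) ∈ 𝔭 := fun j => (evq_iff q2 ha₀ _).1 (q4' j)
  have b2 := nd a₀ b1
  obtain ⟨e, he0, heS⟩ := he
  obtain ⟨r, hr2, her⟩ : ∃ r, 2 ≤ r ∧ e ∉ 𝔭 ^ r := by
    by_contra hcon
    push Not at hcon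
    have h6 : e ∈ ⨅ i : ℕ, 𝔭 ^ i := by
      rw [Ideal.mem_iInf]
      intro i
      by_cases hi : 2 ≤ i
      · exact hcon i hi
      · exact Ideal.pow_le_pow_right (by omega : i ≤ 2) (hcon 2 le_rfl)
    rw [Ideal.iInf_pow_eq_bot_of_isDomain 𝔭 hp.ne_top] at h6
    exact he0 h6
  obtain ⟨a, ha1, ha2⟩ := h3 (deh 0 G) 𝔭 a₀ hmax b1 b2 r (by omega)
  have haQ : ∀ l, X l - C (a l) ∈ Q₀ := by
    intro l
    have e1 : (X l - C (a l) : MvPolynomial {j : Fin (n + 2) // j ≠ 0} O) =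
        (X l - C (a₀ l)) - C (a l - a₀ l) := by
      rw [C_sub]
      ring
    rw [e1]
    exact Q₀.sub_mem (ha₀ l) ((q2 _).2 (ha1 l))
  have hrp : ∀ x, x ∈ 𝔭 ^ r → x ∈ 𝔭 := fun x hx => Ideal.pow_le_self (by omega) hx
  have hap : ∀ j, eval a (pderiv j (deh 0 G)) ∈ 𝔭 := fun j => hrp _ (ha2 j)
  obtain ⟨v, hv⟩ : ∃ v, v = eval a (deh 0 G) + c := ⟨_, rfl⟩
  have hv1 : v ∈ 𝔭 := by
    have := (evq_iff q2 haQ _).1 q3'
    rwa [map_add, eval_C, ← hv] at this
  have hvr : v ∉ 𝔭 ^ r := by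
    intro hvr
    have : eval a (C e) ∈ 𝔭 ^ r := by
      refine span_to (eval a) _ (𝔭 ^ r) ?_ heS
      rintro x (rfl | ⟨j, rfl⟩)
      · show eval a (deh 0 G + C c) ∈ 𝔭 ^ r
        rwa [map_add, eval_C, ← hv]
      · exact ha2 j
    rw [eval_C] at this
    exact her this
  have hUN : ∀ Q : Ideal (MvPolynomial {j : Fin (n + 2) // j ≠ 0} O), Q.IsPrime →
      (∀ r : O, C r ∈ Q ↔ r ∈ 𝔭) → deh 0 (G + C c * X 0 ^ d) ∈ Q →
      (∀ j, pderiv j (deh 0 (G + C c * X 0 ^ d)) ∈ Q) → ∀ l, X l - C (a l) ∈ Q := by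
    intro Q hQ hCQ g1 g2
    refine h2 G N c 𝔭 hp hN hC Q hQ hCQ (fun j => ?_) ?_ a hap (by rwa [← hv])
    · have := g2 j
      rwa [pd0] at this
    · rwa [deh0] at g1
  -- the valuation
  obtain ⟨k, hk1, hkr, hk2, hk3⟩ : ∃ k, 1 ≤ k ∧ k < r ∧ v ∈ 𝔭 ^ k ∧ v ∉ 𝔭 ^ (k + 1) := by
    classical
    have hexm : ∃ m, v ∉ 𝔭 ^ m := ⟨r, hvr⟩
    obtain ⟨m, hm⟩ : ∃ m, m = Nat.find hexm := ⟨_, rfl⟩
    have m1 : v ∉ 𝔭 ^ m := by rw [hm]; exact Nat.find_spec hexm
    have m2 : ∀ i, i < m → v ∈ 𝔭 ^ i := fun i hi => by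
      have := Nat.find_min hexm (hm ▸ hi)
      push Not at this
      exact this
    have m3 : m ≤ r := by rw [hm]; exact Nat.find_min' hexm hvr
    have m4 : 2 ≤ m := by
      by_contra hlt
      have : m = 0 ∨ m = 1 := by omega
      rcases this with h | h
      · rw [h, pow_zero, Ideal.one_eq_top] at m1
        exact m1 Submodule.mem_top
      · rw [h, pow_one] at m1
        exact m1 hv1
    refine ⟨m - 1, by omega, by omega, m2 _ (by omega), ?_⟩
    rwa [Nat.sub_add_cancel (by omega)]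
  have hevc : eval a (deh 0 (G + C c * X 0 ^ d)) = v := by
    rw [deh0, map_add, eval_C, hv]
  have hpd : ∀ j, eval a (pderiv j (deh 0 (G + C c * X 0 ^ d))) =
      eval a (pderiv j (deh 0 G)) := fun j => by rw [pd0]
  by_cases hk : k = 1
  · left
    subst hk
    have main0 : ∀ Q : Ideal (MvPolynomial {j : Fin (n + 2) // j ≠ 0} O), Q.IsPrime →
        (∀ r : O, C r ∈ Q ↔ r ∈ 𝔭) → deh 0 (G + C c * X 0 ^ d) ∈ Q →
        (∀ j, pderiv j (deh 0 (G + C c * X 0 ^ d)) ∈ Q) →
        ∀ h, h ∉ Q → h * deh 0 (G + C c * X 0 ^ d) ∉ Q ^ 2 := by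
      intro Q hQ hCQ g1 g2
      refine h5 (deh 0 (G + C c * X 0 ^ d)) 𝔭 hp hp0 Q hQ hCQ a (hUN Q hQ hCQ g1 g2)
        (fun j => ?_) ?_
      · rw [hpd]
        exact hap j
      · rw [hevc]
        exact hk3
    intro s Q hQ hCQ hGQ
    by_cases hall : ∃ j, pderiv j (deh s (G + C c * X 0 ^ d)) ∉ Q
    · exact Or.inl hall
    right
    push Not at hall
    by_cases hs : s = 0
    · subst hs
      exact main0 Q hQ hCQ hGQ hall
    · have ht : (tau s 0 : MvPolynomial {j : Fin (n + 2) // j ≠ s} O) ∉ Q := fun ht =>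
        sec G c hd hN hC s hs Q hCQ hGQ (fun j _ => all_pderiv_mem _ d hGc s Q hGQ hall j) ht
      obtain ⟨Q', k1, k2, k3, k4, -, k6⟩ := to0 _ hGc 𝔭 s Q hQ hCQ ht hGQ hall
      refine k6 (main0 Q' k1 k2 k3 fun j => ?_)
      rw [pderiv_deh]
      exact k4 j
  · right
    have hk2' : 2 ≤ k := by omega
    refine ⟨a, ?_⟩
    obtain ⟨t1, t2, t3, t4⟩ := h4 a (G + C c * X 0 ^ d)
    refine ⟨h2p, ⟨k, hk2', ?_, ?_, fun l => ?_⟩, ?_, ?_⟩
    · rw [t2, hevc]
      exact hk2
    · rw [t2, hevc]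
      exact hk3
    · rw [t3, hpd]
      exact Ideal.pow_le_pow_right hkr.le (ha2 l)
    · intro l
      obtain ⟨M, hM⟩ : ∃ M : Matrix {j : Fin (n + 2) // j ≠ 0} {j : Fin (n + 2) // j ≠ 0} O,
        M = (hess (deh 0 (G + C c * X 0 ^ d))).map (eval a) := ⟨_, rfl⟩
      have hhess : hess (deh 0 (G + C c * X 0 ^ d)) = hess (deh 0 G) := by
        unfold hess
        ext i j
        simp only [Matrix.of_apply]
        rw [pd0]
      have hdet : M.det = eval a (hess (deh 0 G)).det := by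
        rw [hM, hhess, RingHom.map_det]
        rfl
      refine ⟨M.det, ?_, ?_⟩
      · rw [hdet]
        exact nd a hap
      · have e1 : C M.det * X l = ∑ i, C (M.adjugate l i) *
            pderiv i (homogeneousComponent 2 (deh 0 (trans a (G + C c * X 0 ^ d)))) := by
          have e2 : ∀ i, pderiv i (homogeneousComponent 2
              (deh 0 (trans a (G + C c * X 0 ^ d)))) = ∑ m, C (M i m) * X m := fun i => by
            rw [t4, hM]
            rfl
          simp only [e2, Finset.mul_sum]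
          rw [Finset.sum_comm]
          have e3 : ∀ m, ∑ i, C (M.adjugate l i) * (C (M i m) * X m) =
              C ((M.adjugate * M) l m) * (X m : MvPolynomial {j : Fin (n + 2) // j ≠ 0} O) := by
            intro m
            rw [Matrix.mul_apply, map_sum, Finset.sum_mul]
            refine Finset.sum_congr rfl fun i _ => ?_
            rw [C_mul]
            ring
          simp only [e3, Matrix.adjugate_mul, Matrix.smul_apply, Matrix.one_apply, smul_eq_mul,
            mul_ite, mul_one, mul_zero]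
          rw [Finset.sum_eq_single l (fun b _ hb => by rw [if_neg (Ne.symm hb), C_0, zero_mul])
            (fun h => absurd (Finset.mem_univ l) h), if_pos rfl]
        rw [e1]
        exact Ideal.sum_mem _ fun i _ => Ideal.mul_mem_left _ _ (Ideal.subset_span ⟨i, rfl⟩)
    · intro s hs Q hQ hCQ hGQ
      left
      by_contra hall
      push Not at hall
      have hHh := trans_homog a _ hGc
      have hall' := all_pderiv_mem _ d hHh s Q hGQ hall
      by_cases ht : (tau s 0 : MvPolynomial {j : Fin (n + 2) // j ≠ s} O) ∈ Q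
      · refine sec G c hd hN hC s hs Q hCQ ?_ (fun j hj => ?_) ht
        · have := Q.sub_mem hGQ (deh_trans a s Q ht (G + C c * X 0 ^ d))
          rwa [sub_sub_cancel] at this
        · have g1 := hall' j
          rw [pderiv_trans a j hj] at g1
          have := Q.sub_mem g1 (deh_trans a s Q ht (pderiv j (G + C c * X 0 ^ d)))
          rwa [sub_sub_cancel] at this
      · obtain ⟨Q', k1, k2, k3, k4, k5, -⟩ := to0 _ hHh 𝔭 s Q hQ hCQ ht hGQ hall
        obtain ⟨θ, hθ⟩ : ∃ θ : MvPolynomial {j : Fin (n + 2) // j ≠ 0} O →ₐ[O]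
            MvPolynomial {j : Fin (n + 2) // j ≠ 0} O, θ = aeval (fun l => X l + C (a l)) :=
          ⟨_, rfl⟩
        have hXs : (X ⟨s, hs⟩ : MvPolynomial {j : Fin (n + 2) // j ≠ 0} O) ∉ Q' := by
          have := k5 (X s) 1 (isHomogeneous_X O s)
          rw [deh_X, deh_X, tau_self, tau_ne 0 s hs] at this
          rw [this]
          exact (Ideal.ne_top_iff_one Q).1 hQ.ne_top
        have hcp : (Q'.comap θ.toRingHom).IsPrime := Ideal.comap_isPrime _ _
        have hun := hUN (Q'.comap θ.toRingHom) hcp (fun r => by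
          rw [Ideal.mem_comap]
          show θ (C r) ∈ Q' ↔ _
          rw [hθ, aeval_C]
          exact k2 r) (by
          rw [Ideal.mem_comap]
          show θ (deh 0 (G + C c * X 0 ^ d)) ∈ Q'
          rw [hθ, ← t1]
          exact k3) (fun j => by
          rw [Ideal.mem_comap]
          show θ (pderiv j (deh 0 (G + C c * X 0 ^ d))) ∈ Q'
          rw [pderiv_deh, hθ, ← (h4 a (pderiv (j : Fin (n + 2)) (G + C c * X 0 ^ d))).1,
            ← pderiv_trans a j j.2]
          exact k4 j) ⟨s, hs⟩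
        rw [Ideal.mem_comap] at hun
        have hun' : θ (X ⟨s, hs⟩ - C (a ⟨s, hs⟩)) ∈ Q' := hun
        rw [hθ, map_sub, aeval_X, aeval_C] at hun'
        apply hXs
        have e9 : (X ⟨s, hs⟩ + C (a ⟨s, hs⟩) - algebraMap O
            (MvPolynomial {j : Fin (n + 2) // j ≠ 0} O) (a ⟨s, hs⟩)) = X ⟨s, hs⟩ := by
          rw [algebraMap_eq]
          ring
        rwa [e9] at hun'

end Pool.Agent.U41.OD
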